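import Pool.Agent.H.MP_153b2f_an.C

set_option autoImplicit false

namespace Pool.Agent.Results.MP_153b2f_an.No
open Pool.Agent.H.MP_153b2f_an

theorem result : ∃ (G : Type) (_ : TopologicalSpace G) (_ : T2Space G) (_ : LocallyCompactSpace G)
    (Γ : Etale G), Γ.DadLE 3 ∧ ¬ Γ.FDC :=
  ⟨GG Lam, inferInstance, inferInstance, inferInstance, ET Lam, main_dad, main_fdc⟩

end Pool.Agent.Results.MP_153b2f_an.No
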